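import Mathlib

/-!
Project OP: continuity of roots and bounded relations (Mathlib only).
-/

set_option autoImplicit false

open Polynomial Filter Topology

namespace Pool.Agent.Y25.OP

section cont
variable {K : Type*} [Field K] [TopologicalSpace K] [IsTopologicalRing K] {N : ℕ}

theorem continuous_coeff_charpoly (j : ℕ) :
    Continuous fun M : Matrix (Fin N) (Fin N) K => M.charpoly.coeff j := by
  have h : (fun M : Matrix (Fin N) (Fin N) K => M.charpoly.coeff j) = fun M =>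
      MvPolynomial.eval (fun p : Fin N × Fin N => M p.1 p.2)
        ((Matrix.charpoly.univ K (Fin N)).coeff j) := by
    funext M
    have h1 : (Matrix.charpoly.univ K (Fin N)).map
        (MvPolynomial.eval (fun p : Fin N × Fin N => M p.1 p.2)) = M.charpoly :=
      Matrix.charpoly.univ_map_eval₂Hom (Fin N) (RingHom.id K) (fun p => M p.1 p.2)
    rw [← h1, Polynomial.coeff_map]
  rw [h]
  exact (MvPolynomial.continuous_eval _).comp (by fun_prop)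

end cont

/-- Continuity of the roots in both directions. -/
theorem roots_close {K L : Type*} [NormedField K] [NormedField L] [NormedAlgebra K L]
    [IsAlgClosed L] {Γ : Type*} [TopologicalSpace Γ] (γ₀ : Γ) (n : ℕ) (P : Γ → K[X])
    (hm : ∀ γ, (P γ).Monic) (hd : ∀ γ, (P γ).natDegree = n)
    (hc : ∀ j, Continuous fun γ => (P γ).coeff j) (η : ℝ) (hη : 0 < η) :
    ∀ᶠ γ in 𝓝 γ₀, (∀ a : L, aeval a (P γ₀) = 0 → ∃ b : L, aeval b (P γ) = 0 ∧ ‖b - a‖ < η) ∧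
      ∀ b : L, aeval b (P γ) = 0 → ∃ a : L, aeval a (P γ₀) = 0 ∧ ‖b - a‖ < η := by
  classical
  -- bound for the roots at the centre
  obtain ⟨R, hR0, hR⟩ : ∃ R : ℝ, 0 ≤ R ∧ ∀ a : L, aeval a (P γ₀) = 0 → ‖a‖ ≤ R := by
    have hfin : {a : L | aeval a (P γ₀) = 0}.Finite := by
      have h1 : {a : L | aeval a (P γ₀) = 0} ⊆ ((P γ₀).aroots L).toFinset := by
        intro a ha
        rw [Finset.mem_coe, Multiset.mem_toFinset, mem_aroots]
        exact ⟨(hm γ₀).ne_zero, ha⟩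
      exact (Finset.finite_toSet _).subset h1
    obtain ⟨R, hR⟩ := (hfin.image fun a => ‖a‖).bddAbove
    refine ⟨max R 0, le_max_right _ _, fun a ha => le_trans (hR ⟨a, ha, rfl⟩) (le_max_left _ _)⟩
  obtain ⟨t, ht0, ht1, ht2⟩ : ∃ t : ℝ, 0 < t ∧ t ≤ 1 / 2 ∧ 2 * t * (R + 1) ≤ η := by
    refine ⟨min (1 / 2) (η / (2 * (R + 1))), by positivity, min_le_left _ _, ?_⟩
    have h1 : min (1 / 2) (η / (2 * (R + 1))) ≤ η / (2 * (R + 1)) := min_le_right _ _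
    have h2 : η / (2 * (R + 1)) * (2 * (R + 1)) = η := div_mul_cancel₀ _ (by positivity)
    nlinarith
  set ε : ℝ := t ^ n / (n + 1) with hε
  have hε0 : 0 < ε := by positivity
  have hpow : n ≠ 0 → ((n + 1 : ℝ) * ε) ^ (n : ℝ)⁻¹ = t := by
    intro hn
    have h1 : (n + 1 : ℝ) * ε = t ^ n := by
      rw [hε]
      field_simp
    rw [h1, Real.pow_rpow_inv_natCast ht0.le hn]
  have hev : ∀ᶠ γ in 𝓝 γ₀, ∀ j ∈ Finset.range (n + 1), ‖(P γ).coeff j - (P γ₀).coeff j‖ < ε := by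
    rw [Filter.eventually_all_finset]
    intro j _
    have h1 : Tendsto (fun γ => ‖(P γ).coeff j - (P γ₀).coeff j‖) (𝓝 γ₀) (𝓝 0) :=
      ((hc j).sub continuous_const).norm.tendsto' _ _ (by
        change ‖(P γ₀).coeff j - (P γ₀).coeff j‖ = 0
        rw [sub_self, norm_zero])
    exact h1.eventually (gt_mem_nhds hε0)
  filter_upwards [hev] with γ hγ
  have hcoef : ∀ j, ‖(P γ).coeff j - (P γ₀).coeff j‖ < ε := by
    intro j
    by_cases hj : j < n + 1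
    · exact hγ j (Finset.mem_range.2 hj)
    · rw [coeff_eq_zero_of_natDegree_lt (by rw [hd]; omega),
        coeff_eq_zero_of_natDegree_lt (by rw [hd]; omega), sub_zero, norm_zero]
      exact hε0
  have hcoef' : ∀ j, ‖(P γ₀).coeff j - (P γ).coeff j‖ < ε := fun j => by
    rw [norm_sub_rev]; exact hcoef j
  have hne : ∀ γ (a : L), aeval a (P γ) = 0 → n ≠ 0 := by
    rintro γ a ha rfl
    have h1 := (hm γ).natDegree_eq_zero.1 (hd γ)
    rw [h1, map_one] at ha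
    exact one_ne_zero ha
  constructor
  · intro a ha
    obtain ⟨b, hb, hab⟩ := exists_aroots_norm_sub_lt_of_norm_coeff_sub_lt hε0 ha (hm γ₀) (hm γ)
      (by rw [hd, hd]) hcoef (IsAlgClosed.splits _)
    rw [hd, hpow (hne _ _ ha)] at hab
    refine ⟨b, ((mem_aroots.1 hb).2), ?_⟩
    rw [norm_sub_rev]
    have h1 : max ‖a‖ 1 ≤ R + 1 := max_le (by have := hR a ha; linarith) (by linarith)
    have h2 : t * max ‖a‖ 1 ≤ t * (R + 1) := mul_le_mul_of_nonneg_left h1 ht0.le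
    nlinarith
  · intro b hb
    obtain ⟨a, ha, hab⟩ := exists_aroots_norm_sub_lt_of_norm_coeff_sub_lt hε0 hb (hm γ) (hm γ₀)
      (by rw [hd, hd]) hcoef' (IsAlgClosed.splits _)
    rw [hd, hpow (hne _ _ hb)] at hab
    have ha' : aeval a (P γ₀) = 0 := (mem_aroots.1 ha).2
    refine ⟨a, ha', ?_⟩
    have h0 : ‖b‖ ≤ ‖a‖ + ‖b - a‖ := by
      have := norm_add_le a (b - a)
      rwa [add_sub_cancel] at this
    have h1 := hR a ha'
    have h2 : max ‖b‖ 1 ≤ 2 * (R + 1) := by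
      rcases le_total ‖b‖ 1 with h | h
      · rw [max_eq_right h]; linarith
      · rw [max_eq_left h] at hab ⊢
        nlinarith
    nlinarith

/-- The bounded relations near a tuple of nonzero numbers. -/
theorem rel_near {L : Type*} [NormedField L] (B M N : ℕ) (hM : 0 < M) (z : Fin N → L)
    (hz : ∀ j, z j ≠ 0) :
    ∀ᶠ w in 𝓝 z, ∀ e : Fin N → ℤ, (∀ j, |e j| ≤ B) →
      ((∏ j, z j ^ e j) ^ M ≠ 1 → (∏ j, w j ^ e j) ^ M ≠ 1) ∧
      ((∏ j, w j ^ e j) ^ M = 1 → ∏ j, w j ^ e j ≠ 1 →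
        (∏ j, z j ^ e j) ^ M = 1 ∧ ∏ j, z j ^ e j ≠ 1) := by
  classical
  have hfin : {e : Fin N → ℤ | ∀ j, |e j| ≤ B}.Finite := by
    refine (Set.finite_Icc (fun _ : Fin N => -(B : ℤ)) (fun _ => (B : ℤ))).subset ?_
    intro e he
    exact ⟨fun j => (abs_le.1 (he j)).1, fun j => (abs_le.1 (he j)).2⟩
  have key : ∀ᶠ w in 𝓝 z, ∀ e ∈ {e : Fin N → ℤ | ∀ j, |e j| ≤ B},
      ((∏ j, z j ^ e j) ^ M ≠ 1 → (∏ j, w j ^ e j) ^ M ≠ 1) ∧
      ((∏ j, w j ^ e j) ^ M = 1 → ∏ j, w j ^ e j ≠ 1 →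
        (∏ j, z j ^ e j) ^ M = 1 ∧ ∏ j, z j ^ e j ≠ 1) := by
    rw [Filter.eventually_all_finite hfin]
    intro e _
    have hcont : ContinuousAt (fun w : Fin N → L => ∏ j, w j ^ e j) z := by
      refine tendsto_finsetProd _ fun j _ => ?_
      exact (continuousAt_apply j z).zpow₀ (e j) (Or.inl (hz j))
    have hA : (∏ j, z j ^ e j) ^ M ≠ 1 → ∀ᶠ w in 𝓝 z, (∏ j, w j ^ e j) ^ M ≠ 1 := by
      intro h
      exact (hcont.pow M).eventually_ne h
    by_cases h1 : (∏ j, z j ^ e j) ^ M = 1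
    · by_cases h2 : ∏ j, z j ^ e j = 1
      · have hS : {x : L | x ^ M = 1 ∧ x ≠ 1}.Finite := by
          refine Set.Finite.subset (Finset.finite_toSet (nthRoots M (1 : L)).toFinset) ?_
          intro x hx
          rw [Finset.mem_coe, Multiset.mem_toFinset, mem_nthRoots hM]
          exact hx.1
        have hn : {x : L | x ^ M = 1 ∧ x ≠ 1}ᶜ ∈ 𝓝 (∏ j, z j ^ e j) := by
          apply hS.isClosed.isOpen_compl.mem_nhds
          rw [h2]
          rintro ⟨_, h3⟩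
          exact h3 rfl
        filter_upwards [hcont hn] with w hw
        refine ⟨fun h => absurd h1 h, fun h3 h4 => absurd ⟨h3, h4⟩ hw⟩
      · exact Filter.Eventually.of_forall fun w => ⟨fun h => absurd h1 h, fun _ _ => ⟨h1, h2⟩⟩
    · filter_upwards [hA h1] with w hw
      exact ⟨fun _ => hw, fun h3 _ => absurd h3 hw⟩
  filter_upwards [key] with w hw e he
  exact hw e he

/-- The bounded relations between the roots are locally constant. -/
theorem rel_roots {K L : Type*} [NormedField K] [NormedField L] [NormedAlgebra K L]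
    [IsAlgClosed L] {Γ : Type*} [TopologicalSpace Γ] (γ₀ : Γ) (ι : Type*) [Fintype ι] (n : ι → ℕ)
    (P : ι → Γ → K[X]) (hm : ∀ i γ, (P i γ).Monic) (hd : ∀ i γ, (P i γ).natDegree = n i)
    (hc : ∀ i j, Continuous fun γ => (P i γ).coeff j) (h0 : ∀ i, aeval (0 : L) (P i γ₀) ≠ 0)
    (B M N : ℕ) (k : Fin N → ι) (hM : 0 < M) :
    ∀ᶠ γ in 𝓝 γ₀,
  (∀ z : Fin N → L, (∀ j, aeval (z j) (P (k j) γ₀) = 0) →
    ∃ z' : Fin N → L, (∀ j, aeval (z' j) (P (k j) γ) = 0) ∧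
      ∀ e : Fin N → ℤ, (∀ j, |e j| ≤ B) → (∏ j, z j ^ e j) ^ M ≠ 1 →
        (∏ j, z' j ^ e j) ^ M ≠ 1) ∧
  (∀ z' : Fin N → L, (∀ j, aeval (z' j) (P (k j) γ) = 0) →
    ∃ z : Fin N → L, (∀ j, aeval (z j) (P (k j) γ₀) = 0) ∧
      ∀ e : Fin N → ℤ, (∀ j, |e j| ≤ B) → (∏ j, z' j ^ e j) ^ M = 1 → ∏ j, z' j ^ e j ≠ 1 →
        (∏ j, z j ^ e j) ^ M = 1 ∧ ∏ j, z j ^ e j ≠ 1) := by
  classical
  have hroot : ∀ i, {a : L | aeval a (P i γ₀) = 0}.Finite := by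
    intro i
    have h1 : {a : L | aeval a (P i γ₀) = 0} ⊆ ((P i γ₀).aroots L).toFinset := by
      intro a ha
      rw [Finset.mem_coe, Multiset.mem_toFinset, mem_aroots]
      exact ⟨(hm i γ₀).ne_zero, ha⟩
    exact (Finset.finite_toSet _).subset h1
  have hZ : {z : Fin N → L | ∀ j, aeval (z j) (P (k j) γ₀) = 0}.Finite := by
    have h1 := Set.Finite.pi fun j : Fin N => hroot (k j)
    refine h1.subset ?_
    intro z hz j _
    exact hz j
  have hη : ∃ η : ℝ, 0 < η ∧ ∀ z ∈ {z : Fin N → L | ∀ j, aeval (z j) (P (k j) γ₀) = 0},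
      ∀ w : Fin N → L, (∀ j, ‖w j - z j‖ < η) → ∀ e : Fin N → ℤ, (∀ j, |e j| ≤ B) →
      ((∏ j, z j ^ e j) ^ M ≠ 1 → (∏ j, w j ^ e j) ^ M ≠ 1) ∧
      ((∏ j, w j ^ e j) ^ M = 1 → ∏ j, w j ^ e j ≠ 1 →
        (∏ j, z j ^ e j) ^ M = 1 ∧ ∏ j, z j ^ e j ≠ 1) := by
    have h1 : ∀ᶠ η in 𝓝[>] (0 : ℝ), ∀ z ∈ {z : Fin N → L | ∀ j, aeval (z j) (P (k j) γ₀) = 0},
        ∀ w : Fin N → L, (∀ j, ‖w j - z j‖ < η) → ∀ e : Fin N → ℤ, (∀ j, |e j| ≤ B) →
        ((∏ j, z j ^ e j) ^ M ≠ 1 → (∏ j, w j ^ e j) ^ M ≠ 1) ∧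
        ((∏ j, w j ^ e j) ^ M = 1 → ∏ j, w j ^ e j ≠ 1 →
          (∏ j, z j ^ e j) ^ M = 1 ∧ ∏ j, z j ^ e j ≠ 1) := by
      rw [Filter.eventually_all_finite hZ]
      intro z hz
      have hz0 : ∀ j, z j ≠ 0 := by
        intro j hj
        have := hz j
        rw [hj] at this
        exact h0 _ this
      obtain ⟨ρ, hρ, h2⟩ := Metric.eventually_nhds_iff.1 (rel_near B M N hM z hz0)
      filter_upwards [Ioo_mem_nhdsGT hρ] with η hη w hw
      apply h2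
      rw [dist_pi_lt_iff hρ]
      intro j
      rw [dist_eq_norm]
      exact (hw j).trans hη.2
    obtain ⟨η, h2, h3⟩ := (h1.and self_mem_nhdsWithin).exists
    exact ⟨η, h3, h2⟩
  obtain ⟨η, hη0, hη⟩ := hη
  have hcl : ∀ᶠ γ in 𝓝 γ₀, ∀ i ∈ (Finset.univ : Finset ι),
      (∀ a : L, aeval a (P i γ₀) = 0 → ∃ b : L, aeval b (P i γ) = 0 ∧ ‖b - a‖ < η) ∧
      ∀ b : L, aeval b (P i γ) = 0 → ∃ a : L, aeval a (P i γ₀) = 0 ∧ ‖b - a‖ < η := by
    rw [Filter.eventually_all_finset]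
    intro i _
    exact roots_close γ₀ (n i) (P i) (hm i) (hd i) (hc i) η hη0
  filter_upwards [hcl] with γ hγ
  constructor
  · intro z hz
    choose z' h1 h2 using fun j => (hγ (k j) (Finset.mem_univ _)).1 (z j) (hz j)
    exact ⟨z', h1, fun e he => (hη z hz z' h2 e he).1⟩
  · intro z' hz'
    choose z h1 h2 using fun j => (hγ (k j) (Finset.mem_univ _)).2 (z' j) (hz' j)
    exact ⟨z, h1, fun e he => (hη z h1 z' h2 e he).2⟩

/-- ROOT -/
theorem root_aux (ℓ : ℕ) [Fact ℓ.Prime] (ι : Type) [Fintype ι] (n : ι → ℕ) (Γ : Type)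
    [Group Γ] [TopologicalSpace Γ] [IsTopologicalGroup Γ]
    (ρ : ∀ i, Representation ℚ_[ℓ] Γ (Fin (n i) → ℚ_[ℓ]))
    (hρ : ∀ i, Continuous fun g => LinearMap.toMatrix' (ρ i g))
    (B M N : ℕ) (k : Fin N → ι) (γ₀ : Γ) (hM : 0 < M) : ∃ O : Set Γ, IsOpen O ∧ γ₀ ∈ O ∧ ∀ γ ∈ O,
  (∀ z : Fin N → AlgebraicClosure ℚ_[ℓ], (∀ j, aeval (z j) (ρ (k j) γ₀).charpoly = 0) →
    ∃ z' : Fin N → AlgebraicClosure ℚ_[ℓ], (∀ j, aeval (z' j) (ρ (k j) γ).charpoly = 0) ∧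
      ∀ e : Fin N → ℤ, (∀ j, |e j| ≤ B) → (∏ j, z j ^ e j) ^ M ≠ 1 →
        (∏ j, z' j ^ e j) ^ M ≠ 1) ∧
  (∀ z' : Fin N → AlgebraicClosure ℚ_[ℓ], (∀ j, aeval (z' j) (ρ (k j) γ).charpoly = 0) →
    ∃ z : Fin N → AlgebraicClosure ℚ_[ℓ], (∀ j, aeval (z j) (ρ (k j) γ₀).charpoly = 0) ∧
      ∀ e : Fin N → ℤ, (∀ j, |e j| ≤ B) → (∏ j, z' j ^ e j) ^ M = 1 → ∏ j, z' j ^ e j ≠ 1 →
        (∏ j, z j ^ e j) ^ M = 1 ∧ ∏ j, z j ^ e j ≠ 1) := by
  have hmat : ∀ i γ, (ρ i γ).charpoly = (LinearMap.toMatrix' (ρ i γ)).charpoly := by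
    intro i γ
    rw [← Matrix.charpoly_toLin', Matrix.toLin'_toMatrix']
  have h1 := rel_roots (K := ℚ_[ℓ]) (L := PadicAlgCl ℓ) γ₀ ι n (fun i γ => (ρ i γ).charpoly)
    (fun i γ => LinearMap.charpoly_monic _)
    (fun i γ => by rw [LinearMap.charpoly_natDegree, Module.finrank_fin_fun])
    (fun i j => by
      have h2 := (continuous_coeff_charpoly (K := ℚ_[ℓ]) (N := n i) j).comp (hρ i)
      refine h2.congr fun γ => ?_
      rw [hmat]
      rfl)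
    (fun i => by
      intro h2
      rw [← coeff_zero_eq_aeval_zero'] at h2
      have h3 : (ρ i γ₀).charpoly.coeff 0 = 0 := by
        have h4 : Function.Injective (algebraMap ℚ_[ℓ] (PadicAlgCl ℓ)) :=
          (algebraMap ℚ_[ℓ] (PadicAlgCl ℓ)).injective
        exact (map_eq_zero_iff _ h4).1 h2
      have h5 : LinearMap.det (ρ i γ₀) = 0 := by
        rw [LinearMap.det_eq_sign_charpoly_coeff, h3, mul_zero]
      have h6 : LinearMap.det (ρ i γ₀) * LinearMap.det (ρ i γ₀⁻¹) = 1 := by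
        rw [← map_mul, ← map_mul, mul_inv_cancel, map_one, map_one]
      rw [h5, zero_mul] at h6
      exact zero_ne_one h6) B M N k hM
  obtain ⟨O, hO1, hO2, hO3⟩ := mem_nhds_iff.1 h1
  exact ⟨O, hO2, hO3, fun γ hγ => hO1 hγ⟩

end Pool.Agent.Y25.OP
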