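import Pool.Agent.Y114.OP.Stm
import Pool.Agent.Y25.OP.RootB

/-!
Project OP (helper114), job OP-ROOT: continuity of roots and bounded relations.
-/

set_option autoImplicit false

namespace Pool.Agent.Y25.OP

theorem root : Pool.Agent.Y114.OP.S_ROOT := by
  intro ℓ _ ι _ n Γ _ _ _ ρ hρ B M N k γ₀ hM
  exact root_aux ℓ ι n Γ ρ hρ B M N k γ₀ hM

end Pool.Agent.Y25.OP
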